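import Pool.Agent.Lib.MP_01ebcc_al.Final

set_option autoImplicit false

namespace Pool.Agent.Results.MP_01ebcc_al.AbscissaOne

open Pool.MP01ebcc

/-- The Dirichlet series over the set `H` of genera for which the largest order of a finite group
acting is `8 (g + 1)` has abscissa of absolute convergence `1`. -/
theorem result : LSeries.abscissaOfAbsConv (H.indicator (fun _ => (1 : ℂ))) = 1 :=
  abscissa_eq_one

end Pool.Agent.Results.MP_01ebcc_al.AbscissaOne
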